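import Pool.Agent.Lib_MP_632592_lc.Ring

/-!
# An uncountable model of `VTC^0` that is not an exponential integer part

The definitions are in `Pool.Agent.Lib_MP_632592_lc.Defs`.

*Obstruction.*  Let `Z^M` be the ring of binary integers of a model `M` of `VTC^0`, and suppose that
it is an exponential integer part of an ordered field `R` with exponential `E`.  For `a > 0` in
`Z^M`, `E a` is a positive element of `Z^M`, that is, a string, and it has a length `|E a|` in the
number sort.  As `E (a + 1) = 2 E a`, the map `a ↦ |E a|` is strictly increasing.  So the string sort
has at most the cardinality of the number sort.

*Construction.*  There is a model of `VTC^0` with a countable number sort and an uncountable string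
sort.  It is found inside the ultrapower `ℕ^ℕ / U`.  Fix countably many functions on `ℕ` (Skolem
functions for `Σ^B_0` formulas, comprehension functions, arithmetic, counting, and the functions
that select a most popular value).  If a countable set `K` of elements of the ultrapower contains
the infinite number `n` and is closed under these functions, then there is a new element `a < 2^n`
such that the closure of `K ∪ {a}` has no new element below the powers `n^k`: there are at most
polynomially many possible values below `n^k`, so one can shrink `[0, 2^n)` countably many times,
always passing to the most popular value, and keep a set of size `2^n / poly(n)`; an element of all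
these sets exists by countable saturation.  By Zorn's lemma one gets a closed set `K` with
uncountably many elements below `2^n` and only countably many below the powers `n^k`.  The number
sort consists of the elements of `K` below some `n^k`, the string sort of the elements of `K` below
some `2^(n^k)`.
-/

namespace Pool.Agent.Results.MP_632592_lc.NotExpIntegerPart

open Pool.Agent.Lib_MP_632592_lc

universe u v

/-- **Not every uncountable model of `VTC^0` is an exponential integer part of a real-closed
exponential field.**  There is a model `M` of `VTC^0` with an uncountable string sort (and a
countable number sort) that has a ring of binary integers, and whose ring of binary integers is not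
(isomorphic to) an exponential integer part of any ordered exponential field, real closed or not. -/
theorem result : ∃ M : TwoSorted, M.IsVTC0 ∧ Uncountable M.Str ∧ Countable M.Num ∧
    (∃ (Z : Type) (_ : CommRing Z) (_ : LinearOrder Z) (_ : IsStrictOrderedRing Z)
      (val : M.Str → Z), M.IsBinaryIntegers val) ∧
    ∀ (Z : Type u) [CommRing Z] [LinearOrder Z] [IsStrictOrderedRing Z] (val : M.Str → Z),
      M.IsBinaryIntegers val →
      ∀ (R : Type v) [Field R] [LinearOrder R] [IsStrictOrderedRing R] (E : R → R),
        IsExponential E → ∀ ι : Z →+* R, ¬ IsExpIntegerPart E ι := by
  obtain ⟨M, hM, hc, hu, hZ⟩ := exists_model
  refine ⟨M, hM, hu, hc, hZ, ?_⟩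
  intro Z _ _ _ val hval R _ _ _ E hE ι hι
  exact not_countable_iff.mpr hu (countable_str_of hM hval hE hι hc)

end Pool.Agent.Results.MP_632592_lc.NotExpIntegerPart
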